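import Mathlib
import Pool.Agent.Y91.JP.Piece3
import Pool.Agent.Q182.UW.OddA
import Pool.Agent.Q176.UV.PieceOdd

/-!
# Project UV, job UV10: an irreducible summand of dimension four

The Lie algebra acts on it as the full symplectic Lie algebra.
-/

set_option autoImplicit false
set_option linter.unusedSectionVars false

namespace Pool.Agent.Q211.UV

open Module LinearMap Pool.Agent.W548.Odd Pool.Agent.Y91.JP Q182.UW

section gen

variable {K : Type*} [Field K] [CharZero K] {V : Type*} [AddCommGroup V] [Module K V]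
  [FiniteDimensional K V]

variable {G : Submodule K (End K V)} {st : End K V →ₗ[K] End K V} (h : Setup G st)
  (hs : Scal G)

/-- An element of the joint positive part of two orthogonal involutions has rank at most one quarter
of the dimension. -/
theorem four_rk_le {D D' z : End K V} (hD : D * D = 1) (hD' : D' * D' = 1) (hc : D * D' = D' * D)
    (t1 : trace K V D = 0) (t2 : trace K V D' = 0) (t3 : trace K V (D * D') = 0)
    (h1 : D * z = z) (h2 : D' * z = z) : 4 * rk z ≤ finrank K V := by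
  obtain ⟨p, hp⟩ : ∃ p, p = (4 : K)⁻¹ • ((1 + D) * (1 + D')) := ⟨_, rfl⟩
  have e1 : (1 + D) * (1 + D') * ((1 + D) * (1 + D')) = (4 : K) • ((1 + D) * (1 + D')) := by
    have a1 : (1 + D') * (1 + D) = (1 + D) * (1 + D') := by
      rw [add_mul, add_mul, mul_add, mul_add, mul_add, mul_add, hc]
      noncomm_ring
    have a2 : (1 + D) * (1 + D) = (2 : K) • (1 + D) := by
      rw [add_mul, mul_add, mul_add, hD, two_smul]
      noncomm_ring
    have a3 : (1 + D') * (1 + D') = (2 : K) • (1 + D') := by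
      rw [add_mul, mul_add, mul_add, hD', two_smul]
      noncomm_ring
    calc (1 + D) * (1 + D') * ((1 + D) * (1 + D')) =
        (1 + D) * ((1 + D') * (1 + D)) * (1 + D') := by noncomm_ring
    _ = ((1 + D) * (1 + D)) * ((1 + D') * (1 + D')) := by rw [a1]; noncomm_ring
    _ = _ := by
      rw [a2, a3, smul_mul_smul_comm]
      norm_num
  have hpp : p * p = p := by
    rw [hp, smul_mul_smul_comm, e1, smul_smul]
    congr 1
    norm_num
  have ht : (4 : K) * trace K V p = finrank K V := by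
    have a1 : (1 + D) * (1 + D') = 1 + D' + D + D * D' := by noncomm_ring
    rw [hp, map_smul, a1, map_add, map_add, map_add, t1, t2, t3, LinearMap.trace_one, smul_eq_mul]
    ring
  rw [trace_idem hpp] at ht
  have ht' : 4 * rk p = finrank K V := by exact_mod_cast ht
  have hpz : p * z = z := by
    have a4 : z + z + (z + z) = (4 : K) • z := by
      rw [show (4 : K) = 2 + 2 by norm_num, add_smul, two_smul]
    rw [hp, smul_mul_assoc, mul_assoc, add_mul 1 D' z, one_mul, h2, add_mul, one_mul, mul_add, h1,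
      a4, smul_smul, inv_mul_cancel₀ (by norm_num), one_smul]
  have h3 : rk z ≤ rk p := by
    conv_lhs => rw [← hpz]
    exact rk_mul_le_left _ _
  omega

/-- A symmetric element of rank at most one is zero. -/
theorem alt_zero {ω : V →ₗ[K] V →ₗ[K] K} (hω : AltF st ω) {z : End K V} (hz : st z = z)
    (h1 : rk z ≤ 1) : z = 0 := by
  by_contra hne
  obtain ⟨u, hu⟩ : ∃ u, z u ≠ 0 := by
    by_contra hcon
    push Not at hcon
    exact hne (LinearMap.ext hcon)
  have hB : ∀ v, ω (z v) v = 0 := by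
    intro v
    have a1 := hω.adj z v v
    rw [hz, hω.anti v (z v)] at a1
    have a2 : (2 : K) * ω (z v) v = 0 := by linear_combination a1
    exact (mul_eq_zero.1 a2).resolve_left two_ne_zero
  have hr : ∀ v, ∃ c : K, z v = c • z u := by
    intro v
    have a1 : finrank K (LinearMap.range z) ≤ 1 := h1
    have a2 : finrank K (Submodule.span K {z u}) = 1 := finrank_span_singleton hu
    have a3 : Submodule.span K {z u} = LinearMap.range z := by
      refine Submodule.eq_of_le_of_finrank_le ?_ (by rw [a2]; exact a1)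
      rw [Submodule.span_singleton_le_iff_mem]
      exact ⟨u, rfl⟩
    have a4 : z v ∈ Submodule.span K {z u} := by
      rw [a3]
      exact ⟨v, rfl⟩
    obtain ⟨c, hc⟩ := Submodule.mem_span_singleton.1 a4
    exact ⟨c, hc.symm⟩
  apply hu
  refine hω.nd _ fun v => ?_
  rw [hω.anti, neg_eq_zero]
  obtain ⟨c, hc⟩ := hr v
  have a1 := hB (u + v)
  have a2 := hB u
  have a3 := hB v
  have e1 : z (u + v) = (1 + c) • z u := by rw [map_add, hc, add_smul, one_smul]
  rw [hc, map_smul, LinearMap.smul_apply, smul_eq_mul] at a3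
  rw [e1, map_smul, LinearMap.smul_apply, map_add, a2, smul_eq_mul] at a1
  linear_combination a1 - a3

include h hs in
/-- One of the generating involutions generates the Lie algebra as an ideal. -/
theorem gn_top4 (htr : TrSt st) {ω : V →ₗ[K] V →ₗ[K] K} (hω : AltF st ω) {DD : Set (End K V)}
    (hDG : ∀ d ∈ DD, d ∈ G ∧ d * d = 1)
    (hgen : ∀ L : Submodule K (End K V), (∀ d ∈ DD, d ∈ L) →
      (∀ y ∈ L, ∀ z ∈ L, y * z - z * y ∈ L) → G ≤ L)
    {d0 : End K V} (hd0 : d0 ∈ DD) (hne : d0 ≠ 0) (h4 : finrank K V = 4) : G ≤ gn G d0 := by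
  obtain ⟨hdG, hd2⟩ := hDG d0 hd0
  obtain ⟨I, hI'⟩ : ∃ I, I = gn G d0 := ⟨_, rfl⟩
  have hI : IsIdl G I := by rw [hI']; exact gn_idl h hdG
  have hd0I : d0 ∈ I := by rw [hI']; exact mem_gn
  by_contra hgn
  rw [← hI'] at hgn
  obtain ⟨d, hd, hdI⟩ : ∃ d ∈ DD, d ∉ I := by
    by_contra hcon
    push Not at hcon
    exact hgn (hgen I hcon fun y hy z hz => hI.br y (hI.le hy) z hz)
  obtain ⟨hd1, hd12⟩ := hDG d hd
  have hc := (invol_dich h hs hI hd1 hd12).resolve_left hdI
  have hcz : ∀ z ∈ gn G d0, d * z = z * d := by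
    rw [← hI']
    exact hc.2
  have hC := cen_idl h hI
  have hdne : d ≠ 0 := by
    intro h0
    apply hdI
    rw [h0]
    exact I.zero_mem
  obtain ⟨x, hx, hx0⟩ := exists_kp h hs hdG hd2 hne
  obtain ⟨y, hy, hy0⟩ := exists_kp h hs hd1 hd12 hdne
  have hxI : x ∈ I := idl_of_pos hI hd0I hx.1 hx.2.1 hx.2.2
  have hyC : y ∈ cen G I := idl_of_pos hC hc hy.1 hy.2.1 hy.2.2
  have hyx : y * x = x * y := hyC.2 x hxI
  have hyd : y * d0 = d0 * y := hyC.2 d0 hd0I
  have hdx : d * x = x * d := hc.2 x hxI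
  have hdd : d0 * d = d * d0 := (hc.2 d0 hd0I).symm
  have hst : st (x * y) = x * y := by
    rw [h.st_mul, h.skew x hx.1, h.skew y hy.1, neg_mul_neg, hyx]
  have t3 := trace_zero h hs hdG hd2 hne hcz
  have hrk := four_rk_le (z := x * y) hd2 hd12 hdd (Pool.Agent.Q176.UV.tr_zero' h htr hdG)
    (Pool.Agent.Q176.UV.tr_zero' h htr hd1) t3 (by rw [← mul_assoc, hx.2.1])
    (by rw [← mul_assoc, hdx, mul_assoc, hy.2.1])
  have hxy : x * y = 0 := alt_zero hω hst (by omega)
  refine hy0 (prod_zero h hs hdG hd2 hI (u := x) (v := y) (fun z hz => hz.2 x hxI)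
    (fun z hz => (hyC.2 z hz).symm) (by rw [hyx, hxy]) hx0)

include h hs in
/-- Elements of rank one. -/
theorem rank_one_pair4 [IsAlgClosed K] (htr : TrSt st) {D : End K V} (hD : D ∈ G)
    (hD2 : D * D = 1) (hD0 : D ≠ 0) (hgn : G ≤ gn G D)
    (h4 : finrank K V = 4) : ∃ e ∈ G, ∃ f ∈ G, rk e = 1 ∧ rk f = 1 ∧ e * f * e = e := by
  have t1 := Pool.Agent.Q176.UV.tr_zero' h htr hD
  obtain ⟨N, hN, -, hN0, hr⟩ := exists_small h hs hD hD2 hD0 t1 hgn
  have hr1 : rk N ≤ 1 := by
    rcases hr with hr | hr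
    · omega
    · omega
  obtain ⟨E, hE, hE2, hEN⟩ : ∃ E ∈ G, E * E = 1 ∧ E * N ≠ N * E := by
    by_contra hcon
    push Not at hcon
    exact hN0 (central_zero h hs hD hD2 hN (comm_of_invol h hcon))
  obtain ⟨D', hD', hDG', hD2', e, he, he0, her, -, f, hf, h1, h2⟩ :=
    exists_small_min h hE hE2 hN hEN
  have e0 : rk e ≠ 0 := fun h0 => he0 (rk_eq_zero h0)
  have e1 : rk e = 1 := by omega
  have h6 : rk f ≤ rk e := by
    conv_lhs => rw [← h2]
    exact (rk_mul_le_left _ _).trans (rk_mul_le_right _ _)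
  have h7 : rk e ≤ rk f := by
    conv_lhs => rw [← h1]
    exact (rk_mul_le_left _ _).trans (rk_mul_le_right _ _)
  exact ⟨e, he.1, f, (mem_Kn.1 hf).1, e1, by omega, h1⟩

end gen

open Pool.Agent.W437.HP in
/-- **The action on a summand of dimension four is the symplectic Lie algebra.** -/
theorem piece4 {V : Type*} [AddCommGroup V] [Module ℂ V] [FiniteDimensional ℂ V]
    {G : Submodule ℂ (End ℂ V)} {st : End ℂ V →ₗ[ℂ] End ℂ V} (h : Setup G st)
    {ω : V →ₗ[ℂ] V →ₗ[ℂ] ℂ} (hω : AltF st ω) (htr : TrSt st) {M : Submodule ℂ V}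
    {p : V →ₗ[ℂ] M} (c : Cor G st M p) (hM : IrrS G M) {DD : Set (End ℂ V)}
    (hDG : ∀ d ∈ DD, d ∈ G ∧ d * d = 1)
    (hgen : ∀ L : Submodule ℂ (End ℂ V), (∀ d ∈ DD, d ∈ L) →
      (∀ y ∈ L, ∀ z ∈ L, y * z - z * y ∈ L) → G ≤ L)
    {d0 : End ℂ V} (hd0 : d0 ∈ DD) (h4 : finrank ℂ M = 4)
    (x y : M) : EE (ω.domRestrict₁₂ M M) x y ∈ G.map (rs M p) := by
  have hs := scal_irr c hM
  have h' := c.setup h hs
  have hω' := c.altF h hω
  have htr' := c.trSt h htr
  have hDG' : ∀ d ∈ (rs M p) '' DD, d ∈ G.map (rs M p) ∧ d * d = 1 := by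
    rintro _ ⟨d, hd, rfl⟩
    refine ⟨⟨d, (hDG d hd).1, rfl⟩, ?_⟩
    rw [← c.rs_mem_mul h (hDG d hd).1, (hDG d hd).2, rs_one c.hp]
  have hgen' : ∀ L : Submodule ℂ (End ℂ M), (∀ d ∈ (rs M p) '' DD, d ∈ L) →
      (∀ y ∈ L, ∀ z ∈ L, y * z - z * y ∈ L) → G.map (rs M p) ≤ L := by
    intro L h1 h2
    have h3 : G ≤ G ⊓ L.comap (rs M p) := by
      refine hgen _ ?_ ?_
      · intro d hd
        exact ⟨(hDG d hd).1, h1 _ ⟨d, hd, rfl⟩⟩
      · rintro y ⟨hy, hy'⟩ z ⟨hz, hz'⟩
        refine ⟨h.br y hy z hz, ?_⟩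
        change rs M p (y * z - z * y) ∈ L
        rw [c.rs_br h hy hz]
        exact h2 _ hy' _ hz'
    rintro _ ⟨y, hy, rfl⟩
    exact (h3 hy).2
  have hnt : Nontrivial M := Submodule.nontrivial_iff_ne_bot.2 hM.ne
  have hm0 := hDG' _ ⟨d0, hd0, rfl⟩
  have hne : rs M p d0 ≠ 0 := by
    intro h0
    have h1 := hm0.2
    rw [h0, mul_zero] at h1
    exact zero_ne_one h1
  have hgn := gn_top4 h' hs htr' hω' hDG' hgen' ⟨d0, hd0, rfl⟩ hne h4
  obtain ⟨e, he, f, hf, he1, hf1, hefe⟩ := rank_one_pair4 h' hs htr' hm0.1 hm0.2 hne hgn h4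
  refine full_of_pair ?_ ?_ h'.br ?_ (fun W hW h0 => irr_res c hM hW h0) he hf he1 hf1 hefe x y
  · intro z
    have h1 := hω'.anti z z
    have h2 : (2 : ℂ) * (ω.domRestrict₁₂ M M) z z = 0 := by linear_combination h1
    exact (mul_eq_zero.1 h2).resolve_left two_ne_zero
  · intro z hz
    refine hω'.nd z fun v => ?_
    rw [hω'.anti, hz, neg_zero]
  · intro X hX v w
    rw [hω'.adj, h'.skew X hX]
    exact map_neg _ _

end Pool.Agent.Q211.UV
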