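import Mathlib
import Pool.Agent.Q211.UV.Piece4
import Pool.Agent.Q176.UV.RealM
import Pool.Agent.Q180.UV.Stm2

/-!
# Project UV, job UV10 (helper180): real type, relative dimension two
-/

set_option autoImplicit false
set_option linter.unusedSectionVars false

namespace Pool.Agent.Q211.UV

open Matrix Module LinearMap Polynomial Pool.Agent.W548.Odd Pool.Agent.W437.HC Pool.Agent.W437.HD
  Pool.Agent.W437.HP Pool.Agent.H204R3.CM Pool.Agent.H194R3.CM Pool.Agent.W437.HQ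
  Pool.Agent.W437.HR Pool.Agent.Y91.JP
open Pool.Agent.Q176.UV (mem_range_idem irr_of_prim nonisotropic rank_VQ)

variable {g n : ℕ} {Z : Matrix (Fin g) (Fin g) ℂ}

/-- **Abelian varieties of real type and relative dimension two.** -/
theorem real2_main (hZ : Zᵀ = Z) (hpos : (imM Z).PosDef) (P : ℚ[X])
    (φ : Matrix (Fin g ⊕ Fin g) (Fin g ⊕ Fin g) ℚ) (hP : Irreducible P)
    (hre : ∀ μ : ℂ, aeval μ P = 0 → starRingEnd ℂ μ = μ) (hφ : aeval φ P = 0)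
    (hD : cK ℂ φ * DZ Z = DZ Z * cK ℂ φ) (hg : g = P.natDegree * 2)
    (hcent : ∀ ψ : Matrix (Fin g ⊕ Fin g) (Fin g ⊕ Fin g) ℚ, cK ℂ ψ * DZ Z = DZ Z * cK ℂ ψ →
      ψ * φ = φ * ψ → ∃ q : ℚ[X], ψ = aeval φ q) : HasPcs (DZ Z) := by
  classical
  have hP0 : P ≠ 0 := hP.ne_zero
  have hW : IsPer ({Z} : Set (Matrix (Fin g) (Fin g) ℂ)) := by
    rintro Z' hZ'
    rw [Set.mem_singleton_iff.1 hZ']
    exact ⟨hZ, hpos⟩
  have hZW : Z ∈ ({Z} : Set (Matrix (Fin g) (Fin g) ℂ)) := Set.mem_singleton Z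
  obtain ⟨S, Si, H, -⟩ := Pool.Agent.Y4.G.hermZ' hW hZW
  obtain ⟨G, hG⟩ : ∃ G, G = GG (LA (DZ '' ({Z} : Set (Matrix (Fin g) (Fin g) ℂ)))) := ⟨_, rfl⟩
  have h := H.setup
  rw [← hG] at h
  have hω := altF H.OmT H.Om2
  have htr := trSt H.Om2
  have hcard : Fintype.card (Fin g ⊕ Fin g) = 2 * g := by
    rw [Fintype.card_sum, Fintype.card_fin]
    omega
  obtain ⟨Q, V, HQ, htot⟩ := Pool.Agent.Q2.UW.lin (Fin g ⊕ Fin g) P φ (2 * 2) hP hφ (by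
    rw [hcard, hg]
    ring)
  have HQ' : Pool.Agent.Q210.UW.HQV P φ Q V := HQ
  obtain ⟨E, hE⟩ : ∃ E : ℂ → End ℂ (Fin g ⊕ Fin g → ℂ), E = fun μ => ph _ (V μ * Q μ) := ⟨_, rfl⟩
  have hEa : ∀ μ, E μ = ph _ (V μ * Q μ) := fun μ => by rw [hE]
  have hroot : ∀ μ : (P.aroots ℂ).toFinset, aeval (μ : ℂ) P = 0 := fun μ => by
    have h1 := μ.2
    rw [Multiset.mem_toFinset, Polynomial.mem_aroots] at h1
    exact h1.2
  have hct : ∀ μ, aeval μ P = 0 → InCm (DZ '' {Z}) (V μ * Q μ) := fun μ hμ =>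
    Pool.Agent.Q210.UW.VQ_ct HQ' htot hD hμ hP0
  have hidem : ∀ μ, aeval μ P = 0 → E μ * E μ = E μ := by
    intro μ hμ
    rw [hEa, ← map_mul]
    congr 1
    rw [Matrix.mul_assoc, ← Matrix.mul_assoc (Q μ), (HQ μ hμ).1, Matrix.one_mul]
  have hEG : ∀ μ, aeval μ P = 0 → ∀ y ∈ G, E μ * y = y * E μ := by
    intro μ hμ y hy
    rw [hG] at hy
    rw [hEa]
    exact cmt_iff.2 (hct μ hμ) y hy
  have hrk : ∀ μ, aeval μ P = 0 → finrank ℂ (LinearMap.range (E μ)) = 2 * 2 := by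
    intro μ hμ
    have h1 : rk (ph _ (V μ * Q μ)) = (V μ * Q μ).rank := rk_ph _
    rw [rank_VQ (HQ μ hμ).1] at h1
    rw [hEa]
    exact h1
  have hne : ∀ μ, aeval μ P = 0 → E μ ≠ 0 := by
    intro μ hμ h0
    have h1 := hrk μ hμ
    rw [h0, LinearMap.range_zero, finrank_bot] at h1
    omega
  have hirr : ∀ μ, aeval μ P = 0 → IrrS G (LinearMap.range (E μ)) := by
    intro μ hμ
    refine irr_of_prim h (hidem μ hμ) (hne μ hμ) (hEG μ hμ) fun c hc => ?_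
    obtain ⟨C, rfl⟩ := (ph _).surjective c
    have h1 : InCm (DZ '' {Z}) C := by
      rw [hG] at hc
      exact cmt_iff.1 hc
    obtain ⟨a, ha⟩ := Pool.Agent.Q210.UW.prim HQ' htot hD hcent hμ hP0 C h1
    refine ⟨a, ?_⟩
    rw [hEa, ← map_mul, ← map_mul, ha, map_smul]
  have hmem : ∀ μ, aeval μ P = 0 → ∀ x, x ∈ LinearMap.range (E μ) ↔ (V μ * Q μ) *ᵥ x = x := by
    intro μ hμ x
    rw [mem_range_idem (hidem μ hμ), hEa, ph_apply]
  have hDc : ∀ μ, aeval μ P = 0 → V μ * Q μ * DZ Z = DZ Z * (V μ * Q μ) := fun μ hμ =>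
    hct μ hμ _ (LA_self ⟨Z, hZW, rfl⟩)
  have hreal : ∀ μ, aeval μ P = 0 → (V μ * Q μ).map (starRingAut : ℂ ≃+* ℂ) = V μ * Q μ := by
    intro μ hμ
    have h1 := (HQ μ hμ).2.2.2.2 (starRingAut : ℂ ≃+* ℂ)
    have h2 : (starRingAut : ℂ ≃+* ℂ) μ = μ := hre μ hμ
    rw [h2] at h1
    have h3 : (V μ * Q μ).map ((starRingAut : ℂ ≃+* ℂ) : ℂ →+* ℂ) =
        (V μ).map ((starRingAut : ℂ ≃+* ℂ) : ℂ →+* ℂ) *
        (Q μ).map ((starRingAut : ℂ ≃+* ℂ) : ℂ →+* ℂ) := Matrix.map_mul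
    rw [h1.1, h1.2] at h3
    exact h3
  have hni : ∀ μ, aeval μ P = 0 → ∃ x ∈ LinearMap.range (E μ), ∃ y ∈ LinearMap.range (E μ),
      om (Om g ℂ) x y ≠ 0 := by
    intro μ hμ
    obtain ⟨x, hx, hx0⟩ := Submodule.exists_mem_ne_zero_of_ne_bot (hirr μ hμ).ne
    obtain ⟨u, v, hu, hv, huv⟩ := nonisotropic hZ hpos (hreal μ hμ) (hDc μ hμ)
      ((hmem μ hμ x).1 hx) hx0
    exact ⟨u, (hmem μ hμ u).2 hu, v, (hmem μ hμ v).2 hv, huv⟩
  have hsum : ∀ y, y = ∑ μ : (P.aroots ℂ).toFinset, (E μ y) := by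
    intro y
    have h1 : ∑ μ : (P.aroots ℂ).toFinset, (V μ * Q μ) = 1 := by
      rw [← htot]
      exact Finset.sum_coe_sort (P.aroots ℂ).toFinset (fun μ => V μ * Q μ)
    conv_lhs => rw [← one_mulVec y, ← h1, sum_mulVec]
    refine Finset.sum_congr rfl fun μ _ => ?_
    rw [hEa, ph_apply]
  have hY : IsUnit (imM Z).det := hpos.isUnit.map Matrix.detMonoidHom
  have hVG : LA (DZ '' {Z}) ≤ lieM (DZ Z) ℂ := by
    refine LA_le_lieM ?_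
    rintro _ ⟨Z', hZ', rfl⟩
    rw [Set.mem_singleton_iff.1 hZ']
    exact D_mem (DZ Z)
  have hcl : ∀ μ, aeval μ P = 0 → ∀ X ∈ lieM (DZ Z) ℂ, V μ * Q μ * X = X * (V μ * Q μ) :=
    fun μ hμ => cmt_lie hZ hZW (hct μ hμ)
  have hstL : ∀ μ, aeval μ P = 0 → ∀ X ∈ lieM (DZ Z) ℂ, ∀ x ∈ LinearMap.range (E μ),
      X *ᵥ x ∈ LinearMap.range (E μ) := by
    intro μ hμ X hX x hx
    rw [hmem μ hμ] at hx ⊢
    rw [mulVec_mulVec, hcl μ hμ X hX, ← mulVec_mulVec, hx]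
  -- the generators
  obtain ⟨DD, hDD⟩ : ∃ DD : Set (End ℂ (Fin g ⊕ Fin g → ℂ)),
      DD = {d | ∃ τ : ℂ ≃+* ℂ, d = ph _ ((DZ Z).map τ)} := ⟨_, rfl⟩
  have hDG : ∀ d ∈ DD, d ∈ G ∧ d * d = 1 := by
    rw [hDD]
    rintro _ ⟨τ, rfl⟩
    refine ⟨?_, ?_⟩
    · rw [hG]
      exact mem_GG.2 (LA_aut (τ : ℂ →+* ℂ) (LA_self ⟨Z, hZW, rfl⟩))
    · have e1 : (DZ Z * DZ Z).map (τ : ℂ →+* ℂ) = (DZ Z).map (τ : ℂ →+* ℂ) *
          (DZ Z).map (τ : ℂ →+* ℂ) := Matrix.map_mul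
      rw [DZ_sq hY] at e1
      have e2 : (1 : Matrix (Fin g ⊕ Fin g) (Fin g ⊕ Fin g) ℂ).map (τ : ℂ →+* ℂ) = 1 :=
        Matrix.map_one _ (map_zero _) (map_one _)
      rw [e2] at e1
      have e3 : (DZ Z).map τ * (DZ Z).map τ = 1 := e1.symm
      rw [← map_mul, e3, map_one]
  have hgen : ∀ L : Submodule ℂ (End ℂ (Fin g ⊕ Fin g → ℂ)), (∀ d ∈ DD, d ∈ L) →
      (∀ y ∈ L, ∀ z ∈ L, y * z - z * y ∈ L) → G ≤ L := by
    intro L h1 h2
    rw [hG]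
    have h3 : LA (DZ '' {Z}) ≤ L.comap (ph _).toLinearMap := by
      refine LA_le_of_conj ?_ ?_
      · rintro _ ⟨Z', hZ', rfl⟩ τ
        refine h1 _ ?_
        rw [hDD, Set.mem_singleton_iff.1 hZ']
        exact ⟨τ, rfl⟩
      · intro A hA C hC
        change ph _ (A * C - C * A) ∈ L
        rw [map_sub, map_mul, map_mul]
        exact h2 _ hA _ hC
    intro y hy
    obtain ⟨A, hA, rfl⟩ := exists_GG hy
    exact h3 hA
  have hd0 : ph _ (DZ Z) ∈ DD := by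
    rw [hDD]
    exact ⟨RingEquiv.refl ℂ, by congr 1⟩
  refine ⟨{x // x ∈ (P.aroots ℂ).toFinset}, inferInstance, inferInstance,
    fun a => LinearMap.range (E a), fun a => (om (Om g ℂ)).domRestrict₁₂ _ _,
    fun a => (E a).rangeRestrict, fun a => hstL a.1 (hroot a), hsum, ?_, ?_, ?_, ?_, ?_, ?_⟩
  · intro a
    exact Submodule.nontrivial_iff_ne_bot.2 (hirr a.1 (hroot a)).ne
  · intro a x
    have h1 := hω.anti (x : Fin g ⊕ Fin g → ℂ) x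
    have h2 : (2 : ℂ) * om (Om g ℂ) (x : Fin g ⊕ Fin g → ℂ) x = 0 := by linear_combination h1
    exact (mul_eq_zero.1 h2).resolve_left two_ne_zero
  · intro a x hx
    obtain ⟨p, c⟩ := exists_cor h hω (hirr a.1 (hroot a)) (hni a.1 (hroot a))
    have h1 := c.altF h hω
    refine h1.nd x fun v => ?_
    rw [h1.anti, hx, neg_zero]
  · intro a X x y
    have h1 := sp_C hZ X.1 X.2
    have h2 := (altF (Om := Om g ℂ) H.OmT H.Om2).adj (ph _ X.1) x y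
    have h3 : stE (Om g ℂ) (ph _ X.1) = -(ph _ X.1) := by
      rw [stE_ph, ← map_neg]
      congr 1
      have h5 : X.1ᵀ * Om g ℂ = -(Om g ℂ * X.1) := eq_neg_of_add_eq_zero_left h1
      rw [mul_assoc, h5, mul_neg, neg_neg, ← mul_assoc, Om_sq, neg_one_mul]
    rw [h3] at h2
    exact h2.trans (map_neg _ _)
  · intro a x y
    obtain ⟨p, c⟩ := exists_cor h hω (hirr a.1 (hroot a)) (hni a.1 (hroot a))
    obtain ⟨z, hz, hz'⟩ := piece4 h hω htr c (hirr a.1 (hroot a)) hDG hgen hd0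
      (hrk a.1 (hroot a)) x y
    rw [hG] at hz
    obtain ⟨A, hA, rfl⟩ := exists_GG hz
    refine ⟨⟨A, hVG hA⟩, ?_⟩
    rw [← hz']
    refine LinearMap.ext fun v => ?_
    rw [rs_apply]
    refine (c.hp ⟨A *ᵥ (v : Fin g ⊕ Fin g → ℂ),
      hstL a.1 (hroot a) A (hVG hA) v v.2⟩).symm.trans ?_
    rfl
  · intro a X hX y
    change E a.1 (X *ᵥ y) = X *ᵥ (E a.1 y)
    rw [hEa, ph_apply, ph_apply, mulVec_mulVec, hcl a.1 (hroot a) X hX, ← mulVec_mulVec]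

/-- **Job UV10.** -/
theorem real2 : Pool.Agent.Q180.UV.S_real2 := fun _ _ hZ hpos P φ hP hre hφ hD hg hcent =>
  real2_main hZ hpos P φ hP hre hφ hD hg hcent

end Pool.Agent.Q211.UV
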